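import Mathlib

/-!
# Project EP: the exponent pair conjecture after a small random perturbation of the integers, statements (helper282)
-/

set_option autoImplicit false

open MeasureTheory Filter Topology Classical

namespace Pool.Agent.N282.EP

/-- `e(x) = exp(2πix)` -/
noncomputable def e (x : ℝ) : ℂ := Complex.exp (2 * (Real.pi : ℂ) * Complex.I * (x : ℂ))

/-- admissible functions at scale `N` with the parameter `F` -/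
def Adm (c C : ℕ → ℝ) (N F : ℝ) (f : ℝ → ℝ) : Prop :=
  ContDiffOn ℝ (⊤ : ℕ∞) f (Set.Icc N (2 * N)) ∧ ∀ j : ℕ, ∀ x ∈ Set.Icc N (2 * N),
    c j * F / N ^ j ≤ |iteratedDerivWithin j f (Set.Icc N (2 * N)) x| ∧
    |iteratedDerivWithin j f (Set.Icc N (2 * N)) x| ≤ C j * F / N ^ j

/-- mean square over the translations by `v`, `0 ≤ v ≤ 1` -/
def S_EMS : Prop := ∀ c C : ℕ → ℝ, (∀ j, 0 < c j) → (∀ j, 0 < C j) → ∃ K : ℝ, 0 < K ∧ ∀ (N F : ℝ) (f : ℝ → ℝ),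
  2 ≤ N → N ≤ F → Adm c C N F f → ∀ a b : ℕ, N ≤ a → (b : ℝ) ≤ 2 * N →
    ∫ v in (0 : ℝ)..1, ‖∑ n ∈ Finset.Ico a b, e (f (n + v))‖ ^ 2 ≤ K * N * Real.log N

/-- Hoeffding's inequality for complex variables -/
def S_HOE : Prop := ∀ (Ω : Type) (_ : MeasurableSpace Ω) (P : Measure Ω) (_ : IsProbabilityMeasure P) (J : Finset ℕ)
  (Z : ℕ → Ω → ℂ), (∀ n, Measurable (Z n)) → ProbabilityTheory.iIndepFun Z P → (∀ n ω, ‖Z n ω‖ ≤ 1) →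
  ∀ l : ℝ, 0 < l → (P {ω | l < ‖∑ n ∈ J, (Z n ω - ∫ ω', Z n ω' ∂P)‖}).toReal ≤
    4 * Real.exp (-(l ^ 2 / (16 * (J.card + 1))))

/-- the polynomial with the coefficients `β` in `(x - a) / N` -/
noncomputable def pol {p : ℕ} (β : Fin p → ℝ) (a N x : ℝ) : ℝ := ∑ j, β j * ((x - a) / N) ^ (j : ℕ)

/-- all polynomials and all intervals -/
def S_JIT : Prop := ∀ (p : ℕ) (B A : ℝ), 0 < B → 0 < A → ∃ K : ℝ, 0 < K ∧ ∀ (Ω : Type) (_ : MeasurableSpace Ω)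
  (P : Measure Ω) (_ : IsProbabilityMeasure P) (U : ℕ → Ω → ℝ) (N δ : ℝ), (∀ n, Measurable (U n)) →
  ProbabilityTheory.iIndepFun U P → (∀ n, P.map (U n) = volume.restrict (Set.Icc 0 1)) → 2 ≤ N → 0 < δ → δ ≤ 1 →
    (P {ω | ¬ ∀ (a b : ℕ) (β : Fin p → ℝ), (∀ j, |β j| ≤ N ^ B) → N ≤ a → a ≤ b → (b : ℝ) ≤ 2 * N →
      ‖∑ n ∈ Finset.Ico a b, (e (pol β a N (n + δ * U n ω)) - ∫ u in (0 : ℝ)..1, e (pol β a N (n + δ * u)))‖ ≤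
        K * Real.sqrt N * Real.log N}).toReal ≤ N ^ (-A)

/-- the exponent pair bound for all admissible functions -/
def S_EP : Prop := ∀ ε A : ℝ, 0 < ε → 0 < A → ∀ c C : ℕ → ℝ, (∀ j, 0 < c j) → (∀ j, 0 < C j) → ∃ K : ℝ, 0 < K ∧
  ∀ (Ω : Type) (_ : MeasurableSpace Ω) (P : Measure Ω) (_ : IsProbabilityMeasure P) (U : ℕ → Ω → ℝ) (N δ : ℝ),
  (∀ n, Measurable (U n)) → ProbabilityTheory.iIndepFun U P →
  (∀ n, P.map (U n) = volume.restrict (Set.Icc 0 1)) → 2 ≤ N → 0 < δ → δ ≤ 1 →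
    (P {ω | ¬ ∀ (N' F : ℝ) (f : ℝ → ℝ), N ≤ N' → N' + 1 ≤ 2 * N → N ≤ F → Adm c C N F f →
      ‖∑ n ∈ Finset.Icc ⌈N⌉₊ ⌊N'⌋₊, e (f (n + δ * U n ω))‖ ≤ K * Real.sqrt (N / δ) * F ^ ε}).toReal ≤ N ^ (-A)

end Pool.Agent.N282.EP
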